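import Pool.Agent.L7h91.TW.Fin2

set_option autoImplicit false

/-!
# `2 ^ r ≤ k ≤ 2 ^ r + r` general fat points of arbitrary multiplicities in projective space of dimension `r`

The result `TwoPowerWindow` treats `k ≥ 2 ^ r + r + 1` general points of `ℙ^r`, `r ≥ 3`. Here we treat
the remaining numbers `k ≥ 2 ^ r` (the statements are true for all `k ≥ 2 ^ r`). Let
`κ = k ^ ((r - 1) / r)`, so `κ ≥ 2 ^ (r - 1)`, and let `m 1, …, m k` be arbitrary. For `k` general points of
`ℙ^r` (one nonempty Zariski open set for all degrees `d`):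

* if `(κ + 1 / r) * d < ∑ m i`, then no nonzero form of degree `d` vanishes to order at least `m i` at
  the `i`-th point for all `i`, and the conditions are maximal;
* if `k / (κ - 1 / r) * (m i + r - 1) + r + 1 / 2 ≤ d` for all `i`, then the fat point scheme imposes
  independent (hence maximal) conditions in degree `d`;
* here `κ ± 1 / r` can be replaced by `M / 2` for every number `M ≥ 2 κ` (resp. `M ≤ 2 κ`) which satisfies
  certain integrality conditions.

So for equal multiplicities `m` only the degrees `d` between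
`(1 - O (1 / (r 2 ^ r))) k ^ (1 / r) * m` and `(1 + O (1 / (r 2 ^ r))) k ^ (1 / r) * m + O (r)` remain. For
`k = 9`, `r = 3` (where there is a quadric through the points) `M = 9` gives the sharp bound: there are no
forms of degree `d < 2 m`.

The proof passes from forms of degree `d` to Laurent polynomials with exponents in a simplex. The
known case `k ≥ 3 ^ r` begins with a nodal cubic in one coordinate plane. Here we
begin with a conic, go on with nodal curves in the other coordinate planes, which bring a real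
parameter into the shape of the simplex, and finally return to the first plane, where the simplex can
only be changed by an integral amount.
-/

namespace Pool.Agent.Results.MP_1dafdd_ag.NearSharpTwoPower

open MvPolynomial
open scoped LinearAlgebra.Projectivization
open Pool.Agent.H350R3.MG

/-- `V_d(Γ)`: the forms of degree `d` vanishing to order at least `m i` at the `i`-th point. -/
noncomputable def forms {r k : ℕ} (d : ℕ) (m : Fin k → ℕ) (P : Fin k → ℙ ℂ (Fin (r + 1) → ℂ)) :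
    Submodule ℂ (MvPolynomial (Fin (r + 1)) ℂ) :=
  homogeneousSubmodule (Fin (r + 1)) ℂ d ⊓
    Submodule.restrictScalars ℂ (⨅ i, primeIdeal (P i) ^ m i : Ideal (MvPolynomial (Fin (r + 1)) ℂ))

/-- The naive count `binom (d + r) r - ∑ i, binom (m i + r - 1) r`. -/
def naive (r : ℕ) {k : ℕ} (d : ℕ) (m : Fin k → ℕ) : ℤ :=
  ((d + r).choose r : ℤ) - ∑ i, ((m i + r - 1).choose r : ℤ)

/-- `Γ` imposes maximal conditions in degree `d`. -/
def ImposesMaximalConditions {r k : ℕ} (d : ℕ) (m : Fin k → ℕ)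
    (P : Fin k → ℙ ℂ (Fin (r + 1) → ℂ)) : Prop :=
  (Module.finrank ℂ (forms d m P) : ℤ) = max 0 (naive r d m)

/-- `κ = k ^ ((r - 1) / r)`. -/
noncomputable def kappa (r k : ℕ) : ℝ := (k : ℝ) ^ (((r : ℝ) - 1) / (r : ℝ))

/-- The first type of allowed numbers `M`: `M` or `M - 4 (2 k / M) ^ (r - 2)` is an integer. -/
def Type1 (r k : ℕ) (M : ℝ) : Prop :=
  (∃ N : ℤ, M = N) ∨ ∃ N : ℤ, M - 4 * (2 * k / M) ^ (r - 2) = N

/-- The second type of allowed numbers `M`: for `A = 4 (2 k / M) ^ (r - 3) + 1` we have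
`(2 k / M) A ≤ M`, and there are integers `v, N` with `A (M - v) = (A - 1) N` and
`(2 k / M - 2) A < v < (2 k / M) A`. -/
def Type2 (r k : ℕ) (M : ℝ) : Prop :=
  (2 * k / M) * (4 * (2 * k / M) ^ (r - 3) + 1) ≤ M ∧
  ∃ v N : ℤ, (4 * (2 * k / M) ^ (r - 3) + 1) * (M - v) = 4 * (2 * k / M) ^ (r - 3) * N ∧
    (2 * k / M - 2) * (4 * (2 * k / M) ^ (r - 3) + 1) < v ∧
    (v : ℝ) < 2 * k / M * (4 * (2 * k / M) ^ (r - 3) + 1)

/-- The degrees for which there are no forms. -/
def EmptyDegree (r k : ℕ) (m : Fin k → ℕ) (d : ℕ) : Prop :=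
  (kappa r k + 1 / r) * d < ∑ i, (m i : ℝ) ∨
  ∃ M : ℝ, 2 * kappa r k ≤ M ∧ M ≤ k ∧ (Type1 r k M ∨ Type2 r k M) ∧ M * d < 2 * ∑ i, (m i : ℝ)

/-- The degrees for which the conditions are independent. -/
def IndependentDegree (r k : ℕ) (m : Fin k → ℕ) (d : ℕ) : Prop :=
  (∀ i, k / (kappa r k - 1 / r) * (m i + r - 1) + r + 1 / 2 ≤ d) ∨
  (∃ M : ℝ, 0 < M ∧ 4 * (2 * k / M) ^ (r - 2) ≤ M ∧ M ≤ 2 * kappa r k ∧ Type1 r k M ∧
    ∀ i, 2 * k / M * (m i + r - 1) + r + 1 / 2 ≤ d) ∨
  ∃ M : ℝ, 0 < M ∧ M ≤ 2 * kappa r k ∧ Type2 r k M ∧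
    ∀ i, 2 * k / M * (m i + r - 1) + r + 11 / 4 ≤ d

/-- For `r ≥ 3`, `k ≥ 2 ^ r`, arbitrary multiplicities and `k` general points of `ℙ^r`: there are no
forms in every degree of `EmptyDegree`, the conditions are independent in every degree of
`IndependentDegree`, and they are maximal in all these degrees. -/
theorem result (r k : ℕ) (hr : 3 ≤ r) (hk : 2 ^ r ≤ k) (m : Fin k → ℕ) :
    Generally (fun P : Fin k → ℙ ℂ (Fin (r + 1) → ℂ) => ∀ d : ℕ,
      (EmptyDegree r k m d → forms d m P = ⊥ ∧ ImposesMaximalConditions d m P) ∧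
      (IndependentDegree r k m d →
        (Module.finrank ℂ (forms d m P) : ℤ) = naive r d m ∧ ImposesMaximalConditions d m P)) := by
  obtain ⟨U, hU, hU', h⟩ := L7h91.TW.main5 hr hk m
  obtain ⟨p, rfl⟩ : ∃ p, r = p + 2 := ⟨r - 2, by omega⟩
  obtain ⟨x, hx2, hx1, hxk, hxκ⟩ := L7h91.IR.root hk
  have hκ : kappa (p + 2) k = x ^ (p + 1) := hxκ.symm
  have hκ0 : 0 < kappa (p + 2) k := by rw [hκ]; positivity
  have hκr : (kappa (p + 2) k) ^ (p + 2) = (k : ℝ) ^ (p + 1) := by
    rw [hκ, ← hxk, ← pow_mul, ← pow_mul]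
    congr 1
    ring
  have e1 : p + 2 - 1 = p + 1 := by omega
  have hκk : 2 * kappa (p + 2) k ≤ k := by
    rw [hκ, ← hxk]
    have h0 : 0 < x ^ (p + 1) := by positivity
    calc 2 * x ^ (p + 1) ≤ x * x ^ (p + 1) := mul_le_mul_of_nonneg_right hx2 h0.le
      _ = x ^ (p + 2) := by ring
  refine ⟨U, hU, hU', fun P hP d => ?_⟩
  obtain ⟨h1, h2⟩ := h P hP d
  have e : ∑ i, ((m i + (p + 2) - 1).choose (p + 2) : ℤ) =
      ((∑ i, (m i + (p + 2) - 1).choose (p + 2) : ℕ) : ℤ) := by
    push_cast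
    rfl
  refine ⟨fun hd => ?_, fun hd => ?_⟩
  · obtain ⟨h3, h4⟩ := h1 (by
      rcases hd with hd | ⟨M, hM1, hM2, hM3, hM4⟩
      · exact Or.inr (Or.inl hd)
      · have h5 : (2 : ℝ) ^ (p + 2) * (k : ℝ) ^ (p + 2 - 1) ≤ M ^ (p + 2) := by
          rw [e1, ← hκr, ← mul_pow]
          exact pow_le_pow_left₀ (by linarith) hM1 _
        refine Or.inr (Or.inr ⟨M, ?_, hM4⟩)
        rcases hM3 with hM3 | hM3
        · exact Or.inl ⟨by linarith, hM2, h5, hM3⟩
        · exact Or.inr ⟨by linarith, hM2, h5, hM3⟩)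
    have h5 : forms d m P = ⊥ := h3
    refine ⟨h5, ?_⟩
    unfold ImposesMaximalConditions naive
    rw [h5, finrank_bot, e]
    omega
  · have h3 : ∑ i, (m i + (p + 2) - 1).choose (p + 2) + Module.finrank ℂ ↥(forms d m P) =
        (d + (p + 2)).choose (p + 2) := h2 (by
      rcases hd with hd | ⟨M, hM0, hM1, hM2, hM3, hM4⟩ | ⟨M, hM0, hM2, hM3, hM4⟩
      · exact Or.inl hd
      · refine Or.inr (Or.inr (Or.inl ⟨M, ⟨hM0, by linarith, ?_, hM1, hM3⟩, hM4⟩))
        rw [e1, ← hκr, ← mul_pow]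
        exact pow_le_pow_left₀ hM0.le hM2 _
      · refine Or.inr (Or.inr (Or.inr ⟨M, ⟨hM0, by linarith, ?_, hM3⟩, hM4⟩))
        rw [e1, ← hκr, ← mul_pow]
        exact pow_le_pow_left₀ hM0.le hM2 _)
    unfold ImposesMaximalConditions naive
    rw [e]
    omega

end Pool.Agent.Results.MP_1dafdd_ag.NearSharpTwoPower
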